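import Pool.Agent.Q252.MV11

/-!
# Minimal value set polynomials with value set `U ^ v`

`K` is a finite field with `q = p ^ n` elements, `L` its subfield with `p ^ k` elements, `v ≥ 1`
divides `p ^ k - 1`, and `U` is an `L`-linear subspace of `K` with `1 ∈ U` and `#U ^ v > 2`.
The theorem gives the set of all minimal value set polynomials with value set `U ^ v`, in both
cases of the question.
-/

namespace Pool.Agent.Results.MP_7e38b0_nt.CompleteClassification

open Polynomial

/-- The value set `V_F = {F(a) : a ∈ K}`. -/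
def valueSet {K : Type*} [Field K] (F : K[X]) : Set K := Set.range (fun a => F.eval a)

/-- `F` is a minimal value set polynomial: it is not constant and
`#V_F = ⌊(q - 1) / deg F⌋ + 1`, where `q = #K`. -/
def IsMVSP {K : Type*} [Field K] (F : K[X]) : Prop :=
  0 < F.natDegree ∧ (valueSet F).ncard = (Nat.card K - 1) / F.natDegree + 1

/-- `𝒫(S, q)`: the set of all minimal value set polynomials over `K` with value set `S`. -/
def P {K : Type*} [Field K] (S : Set K) : Set K[X] := {F | IsMVSP F ∧ valueSet F = S}

/-- `S ^ v = {s ^ v : s ∈ S}`. -/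
def powSet {K : Type*} [Field K] (S : Set K) (v : ℕ) : Set K := (fun s => s ^ v) '' S

/-- `U` is a subfield of `K`. -/
def IsSubfield {K : Type*} [Field K] (U : Set K) : Prop := ∃ M : Subfield K, (M : Set K) = U

/-- The smallest subfield of `K` which contains `S`. -/
def smallest {K : Type*} [Field K] (S : Set K) : Subfield K := Subfield.closure S

theorem result {K : Type*} [Field K] [Finite K] {p n k v : ℕ} (_hp : p.Prime)
    (_hK : Nat.card K = p ^ n) (_hkn : k ∣ n) (L : Subfield K) (hL : Nat.card L = p ^ k)
    (hv0 : 1 ≤ v) (hv : v ∣ p ^ k - 1) (U : Submodule L K) (h1 : (1 : K) ∈ U)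
    (hU : 2 < (powSet (U : Set K) v).ncard) :
    (¬ IsSubfield (U : Set K) →
      P (powSet (U : Set K) v) = {F | ∃ f ∈ P (U : Set K), F = f ^ v}) ∧
    (IsSubfield (U : Set K) →
      ∀ e m : ℕ, Nat.card (smallest (powSet (U : Set K) v)) = p ^ e →
        m = Module.finrank L U →
        P (powSet (U : Set K) v)
          = {F | ∃ f ∈ P ((smallest (powSet (U : Set K) v) : Subfield K) : Set K),
              F = f ^ ((p ^ e - 1) * v / (p ^ (m * k) - 1))}) := by
  have hmain := Pool.Agent.Q252.MV.full L v hv0 (by rw [hL]; exact hv) U h1 hU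
  have himage : ∀ (t : ℕ) (A : Set K[X]), (fun f => f ^ t) '' A = {F | ∃ f ∈ A, F = f ^ t} := by
    intro t A
    ext F
    constructor
    · rintro ⟨f, hf, rfl⟩
      exact ⟨f, hf, rfl⟩
    · rintro ⟨f, hf, rfl⟩
      exact ⟨f, hf, rfl⟩
  constructor
  · intro hnf
    have h2 := hmain.1 hnf
    rw [himage] at h2
    exact h2
  · intro hf e m he hm
    have h2 := hmain.2 hf
    rw [himage] at h2
    have h3 : Nat.card U = p ^ (m * k) := by
      have h4 : Nat.card U = Nat.card L ^ Module.finrank L U := Module.natCard_eq_pow_finrank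
      rw [h4, hL, ← hm, ← pow_mul, mul_comm]
    have h5 : Nat.card (Subfield.closure (Pool.Agent.Q252.MV.powSet (U : Set K) v)) = p ^ e := he
    rw [h5, h3] at h2
    exact h2

end Pool.Agent.Results.MP_7e38b0_nt.CompleteClassification
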